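import Mathlib

/-!
The point-versus-interval greedy game on `[0,1]`.

RED picks a closed interval `[a, a + A]` in `[0,1]`, BLUE picks a point `p` of `[0,1]`; the payoff
to RED is `A` if `p` is not in the interval and `-β A` if it is. For every `β ≥ 0` the game has a
value, namely `M(β) = max_n (n - 1 - β) / n ^ 2`.

BLUE plays the distribution with distribution function
`F x = sup_k (k - k ^ 2 M / x) / (1 + β)`.
-/

namespace Pool.Agent.Results.MP_d7d923_pr.ValueFormula

open MeasureTheory Set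

/-- The pure strategies of RED: pairs `(a, A)` standing for the interval `[a, a + A]`. -/
def Red : Set (ℝ × ℝ) := {r | 0 ≤ r.1 ∧ 0 ≤ r.2 ∧ r.1 + r.2 ≤ 1}

/-- The pure strategies of BLUE: the points of `[0,1]`. -/
def Blue : Set ℝ := Icc 0 1

/-- The payoff to RED. -/
noncomputable def payoff (β : ℝ) (r : ℝ × ℝ) (p : ℝ) : ℝ :=
  open Classical in if p ∈ Icc r.1 (r.1 + r.2) then -β * r.2 else r.2

/-- The expected payoff under the mixed strategies `μ` (RED) and `ν` (BLUE). -/
noncomputable def expected (β : ℝ) (μ : ProbabilityMeasure Red) (ν : ProbabilityMeasure Blue) : ℝ :=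
  ∫ x : Red × Blue, payoff β x.1 x.2 ∂((μ : Measure Red).prod (ν : Measure Blue))

/-! ### Elementary facts -/

theorem exists_max {β : ℝ} (hβ : 0 ≤ β) : ∃ n : ℕ, 1 ≤ n ∧ 0 < ((n : ℝ) - 1 - β) / n ^ 2 ∧
    ∀ k : ℕ, 1 ≤ k → ((k : ℝ) - 1 - β) / k ^ 2 ≤ ((n : ℝ) - 1 - β) / n ^ 2 := by
  obtain ⟨N, hN⟩ := exists_nat_gt (1 + β)
  have hN1 : 1 ≤ N := by
    rcases Nat.eq_zero_or_pos N with h | h
    · subst h; norm_num at hN; linarith
    · exact h
  have hN0 : (0 : ℝ) < N := by exact_mod_cast hN1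
  have hpos : 0 < ((N : ℝ) - 1 - β) / N ^ 2 := div_pos (by linarith) (by positivity)
  obtain ⟨K, hK⟩ := exists_nat_gt (1 / (((N : ℝ) - 1 - β) / N ^ 2))
  obtain ⟨n, hn, hmax⟩ := Finset.exists_max_image (Finset.Icc 1 (max N K))
    (fun n : ℕ => ((n : ℝ) - 1 - β) / n ^ 2) ⟨N, by simp [hN1]⟩
  rw [Finset.mem_Icc] at hn
  have hNn := hmax N (by simp [hN1])
  refine ⟨n, hn.1, lt_of_lt_of_le hpos hNn, fun k hk => ?_⟩
  by_cases hkK : k ≤ max N K
  · exact hmax k (by simp [hk, le_max_iff.1 hkK])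
  · push Not at hkK
    have h1 : K < k := lt_of_le_of_lt (le_max_right _ _) hkK
    have h2 : (K : ℝ) < k := by exact_mod_cast h1
    have hk0 : (0 : ℝ) < k := by exact_mod_cast hk
    refine le_trans ?_ hNn
    have h3 : 1 / (((N : ℝ) - 1 - β) / N ^ 2) < k := lt_trans hK h2
    have h4 : 1 < k * (((N : ℝ) - 1 - β) / N ^ 2) := by
      rwa [div_lt_iff₀ hpos] at h3
    have h5 : ((k : ℝ) - 1 - β) / k ^ 2 ≤ 1 / k := by
      rw [div_le_div_iff₀ (by positivity) hk0]
      nlinarith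
    have h6 : 1 / (k : ℝ) ≤ ((N : ℝ) - 1 - β) / N ^ 2 := by
      rw [div_le_iff₀ hk0]; linarith
    exact h5.trans h6

/-! ### The distribution function of BLUE -/

/-- the terms of `F` -/
noncomputable def term (β M x : ℝ) (k : ℕ) : ℝ := (k - k ^ 2 * M / x) / (1 + β)

/-- the distribution function of BLUE -/
noncomputable def F (β M x : ℝ) : ℝ := if 0 < x then ⨆ k : ℕ, term β M x k else 0

theorem term_le {β M x : ℝ} (hβ : 0 ≤ β) (hM : 0 < M) (hx : 0 < x) (k : ℕ) :
    term β M x k ≤ x / (4 * M) / (1 + β) := by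
  unfold term
  have h1 : 0 < 1 + β := by linarith
  apply div_le_div_of_nonneg_right _ h1.le
  rw [sub_le_iff_le_add, div_add_div _ _ (by positivity) hx.ne', le_div_iff₀ (by positivity)]
  nlinarith [sq_nonneg (x - 2 * k * M)]

theorem bdd {β M x : ℝ} (hβ : 0 ≤ β) (hM : 0 < M) (hx : 0 < x) :
    BddAbove (range (term β M x)) :=
  ⟨x / (4 * M) / (1 + β), by rintro _ ⟨k, rfl⟩; exact term_le hβ hM hx k⟩

theorem F_nonneg {β M x : ℝ} (hβ : 0 ≤ β) (hM : 0 < M) : 0 ≤ F β M x := by
  unfold F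
  split_ifs with hx
  · refine le_trans ?_ (le_ciSup (bdd hβ hM hx) 0)
    simp [term]
  · exact le_rfl

theorem F_mono {β M : ℝ} (hβ : 0 ≤ β) (hM : 0 < M) : Monotone (F β M) := by
  intro x y hxy
  by_cases hx : 0 < x
  · have hy : 0 < y := lt_of_lt_of_le hx hxy
    simp only [F, hx, hy, if_true]
    refine ciSup_mono (bdd hβ hM hy) (fun k => ?_)
    unfold term
    have h1 : 0 < 1 + β := by linarith
    apply div_le_div_of_nonneg_right _ h1.le
    have : (k : ℝ) ^ 2 * M / y ≤ (k : ℝ) ^ 2 * M / x := by gcongr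
    linarith
  · have : F β M x = 0 := by simp [F, hx]
    rw [this]; exact F_nonneg hβ hM

/-- superadditivity with one new interval -/
theorem F_add {β M a A : ℝ} (hβ : 0 ≤ β) (hM : 0 < M) (ha : 0 ≤ a) (hA : 0 < A) :
    F β M a + (1 - M / A) / (1 + β) ≤ F β M (a + A) := by
  have h1 : 0 < 1 + β := by linarith
  have hs : 0 < a + A := by linarith
  rcases ha.eq_or_lt with h0 | h0
  · rw [← h0]
    have e0 : F β M 0 = 0 := by simp [F]
    rw [e0, zero_add, zero_add]
    simp only [F, hA, if_true]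
    refine le_trans (le_of_eq ?_) (le_ciSup (bdd hβ hM hA) 1)
    simp [term]
  · have e1 : F β M a = ⨆ k : ℕ, term β M a k := by simp [F, h0]
    have e2 : F β M (a + A) = ⨆ k : ℕ, term β M (a + A) k := by simp [F, hs]
    rw [e1, e2, ← le_sub_iff_add_le]
    refine ciSup_le (fun k => ?_)
    rw [le_sub_iff_add_le]
    refine le_trans ?_ (le_ciSup (bdd hβ hM hs) (k + 1))
    unfold term
    rw [← add_div]
    apply div_le_div_of_nonneg_right _ h1.le
    push_cast
    have key : ((k : ℝ) + 1) ^ 2 / (a + A) ≤ (k : ℝ) ^ 2 / a + 1 / A := by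
      rw [div_add_div _ _ h0.ne' hA.ne', div_le_div_iff₀ hs (by positivity)]
      nlinarith [sq_nonneg ((k : ℝ) * A - a)]
    have key2 := mul_le_mul_of_nonneg_left key hM.le
    have e3 : M * (((k : ℝ) + 1) ^ 2 / (a + A)) = ((k : ℝ) + 1) ^ 2 * M / (a + A) := by ring
    have e4 : M * ((k : ℝ) ^ 2 / a + 1 / A) = (k : ℝ) ^ 2 * M / a + M / A := by ring
    rw [e3, e4] at key2
    linarith

theorem F_one {β M : ℝ} {n : ℕ} (hβ : 0 ≤ β) (hM : 0 < M) (hn : 1 ≤ n)
    (hMn : M = ((n : ℝ) - 1 - β) / n ^ 2)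
    (hmax : ∀ k : ℕ, 1 ≤ k → ((k : ℝ) - 1 - β) / k ^ 2 ≤ M) : F β M 1 = 1 := by
  have h1 : 0 < 1 + β := by linarith
  simp only [F, zero_lt_one, if_true]
  apply le_antisymm
  · refine ciSup_le (fun k => ?_)
    unfold term
    rw [div_le_one h1, div_one]
    rcases Nat.eq_zero_or_pos k with h | h
    · subst h; simp; linarith
    · have hk0 : (0 : ℝ) < k := by exact_mod_cast h
      have := hmax k h
      rw [div_le_iff₀ (by positivity)] at this
      nlinarith
  · refine le_trans (le_of_eq ?_) (le_ciSup (bdd hβ hM one_pos) n)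
    unfold term
    have hn0 : (0 : ℝ) < n := by exact_mod_cast hn
    rw [hMn, eq_div_iff h1.ne']
    field_simp
    ring

/-! ### The mixed strategy of BLUE -/

/-- the quantile function -/
noncomputable def quant (β M : ℝ) (u : ℝ) : ℝ := sInf {x | x ∈ Icc (0 : ℝ) 1 ∧ min u 1 ≤ F β M x}

theorem quant_set {β M : ℝ} (h1 : F β M 1 = 1) (u : ℝ) :
    ({x | x ∈ Icc (0 : ℝ) 1 ∧ min u 1 ≤ F β M x} : Set ℝ).Nonempty :=
  ⟨1, by simp, by rw [h1]; exact min_le_right _ _⟩

theorem quant_bdd (β M u : ℝ) :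
    BddBelow ({x | x ∈ Icc (0 : ℝ) 1 ∧ min u 1 ≤ F β M x} : Set ℝ) := ⟨0, fun _ hx => hx.1.1⟩

theorem quant_mem {β M : ℝ} (h1 : F β M 1 = 1) (u : ℝ) : quant β M u ∈ Blue := by
  refine ⟨le_csInf (quant_set h1 u) (fun _ hx => hx.1.1), ?_⟩
  exact csInf_le (quant_bdd β M u) ⟨by simp, by rw [h1]; exact min_le_right _ _⟩

theorem quant_mono {β M : ℝ} (h1 : F β M 1 = 1) : Monotone (quant β M) := by
  intro u v huv
  refine csInf_le_csInf (quant_bdd β M u) (quant_set h1 v) ?_
  rintro x ⟨hx, hx2⟩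
  exact ⟨hx, le_trans (min_le_min_right _ huv) hx2⟩

/-- the probability space `(0,1]` -/
noncomputable def U : Measure ℝ := volume.restrict (Ioc 0 1)

theorem U_prob : IsProbabilityMeasure U := ⟨by simp [U]⟩

/-- the strategy of BLUE -/
noncomputable def qB (β M : ℝ) (h1 : F β M 1 = 1) (u : ℝ) : Blue := ⟨quant β M u, quant_mem h1 u⟩

theorem qB_meas (β M : ℝ) (h1 : F β M 1 = 1) : Measurable (qB β M h1) :=
  Measurable.subtype_mk (quant_mono h1).measurable

theorem interval_mass {β M a A : ℝ} (hβ : 0 ≤ β) (hM : 0 < M) (h1 : F β M 1 = 1)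
    (ha : 0 ≤ a) (hA : 0 < A) (haA : a + A ≤ 1) :
    (1 - M / A) / (1 + β) ≤ (U.map (qB β M h1)).real {p : Blue | (p : ℝ) ∈ Icc a (a + A)} := by
  have := U_prob
  have hFa : F β M (a + A) ≤ 1 := by rw [← h1]; exact F_mono hβ hM haA
  have hm : MeasurableSet {p : Blue | (p : ℝ) ∈ Icc a (a + A)} :=
    measurable_subtype_coe measurableSet_Icc
  rw [measureReal_def, Measure.map_apply (qB_meas β M h1) hm, ← measureReal_def]
  have hsub : Ioc (F β M a) (F β M (a + A)) ⊆
      qB β M h1 ⁻¹' {p : Blue | (p : ℝ) ∈ Icc a (a + A)} := by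
    rintro u ⟨hu1, hu2⟩
    have hmin : min u 1 = u := min_eq_left (hu2.trans hFa)
    show quant β M u ∈ Icc a (a + A)
    constructor
    · refine le_csInf (quant_set h1 u) ?_
      rintro x ⟨hx, hx2⟩
      rw [hmin] at hx2
      by_contra hlt
      push Not at hlt
      exact absurd (F_mono hβ hM hlt.le) (by linarith)
    · refine csInf_le (quant_bdd β M u) ⟨⟨by linarith, haA⟩, ?_⟩
      rw [hmin]; exact hu2
  have h2 : F β M (a + A) - F β M a ≤ U.real (Ioc (F β M a) (F β M (a + A))) := by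
    rw [measureReal_def, U, Measure.restrict_apply measurableSet_Ioc]
    have : Ioc (F β M a) (F β M (a + A)) ∩ Ioc 0 1 = Ioc (F β M a) (F β M (a + A)) := by
      apply inter_eq_left.2
      rintro u ⟨hu1, hu2⟩
      exact ⟨lt_of_le_of_lt (F_nonneg hβ hM) hu1, hu2.trans hFa⟩
    rw [this, Real.volume_Ioc, ENNReal.toReal_ofReal
      (sub_nonneg.2 (F_mono hβ hM (by linarith)))]
  have h3 := F_add hβ hM ha hA
  have h4 : U.real (Ioc (F β M a) (F β M (a + A))) ≤
      U.real (qB β M h1 ⁻¹' {p : Blue | (p : ℝ) ∈ Icc a (a + A)}) := measureReal_mono hsub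
  linarith

/-! ### Measurability and integrability -/

theorem payoff_meas (β : ℝ) : Measurable (fun x : Red × Blue => payoff β x.1 x.2) := by
  unfold payoff
  refine Measurable.ite ?_ (by fun_prop) (by fun_prop)
  have e : {x : Red × Blue | (x.2 : ℝ) ∈ Icc (x.1 : ℝ × ℝ).1 ((x.1 : ℝ × ℝ).1 + (x.1 : ℝ × ℝ).2)} =
      {x : Red × Blue | (x.1 : ℝ × ℝ).1 ≤ (x.2 : ℝ)} ∩
      {x : Red × Blue | (x.2 : ℝ) ≤ (x.1 : ℝ × ℝ).1 + (x.1 : ℝ × ℝ).2} := by
    ext x; simp [mem_Icc]
  rw [e]
  exact (measurableSet_le (by fun_prop) (by fun_prop)).inter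
    (measurableSet_le (by fun_prop) (by fun_prop))

theorem red_le (r : Red) : (r : ℝ × ℝ).2 ≤ 1 := by
  have := r.2.1; have := r.2.2.2; linarith

theorem payoff_bound {β : ℝ} (hβ : 0 ≤ β) (r : Red) (p : ℝ) :
    -β ≤ payoff β r p ∧ payoff β r p ≤ 1 := by
  have h0 := r.2.2.1
  have h1 := red_le r
  unfold payoff
  split_ifs
  · constructor <;> nlinarith
  · constructor <;> nlinarith

theorem payoff_abs {β : ℝ} (hβ : 0 ≤ β) (r : Red) (p : ℝ) : ‖payoff β r p‖ ≤ 1 + β := by
  have := payoff_bound hβ r p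
  rw [Real.norm_eq_abs, abs_le]
  constructor <;> linarith

theorem integ {β : ℝ} (hβ : 0 ≤ β) (μ : Measure Red) (ν : Measure Blue) [IsProbabilityMeasure μ]
    [IsProbabilityMeasure ν] :
    Integrable (fun x : Red × Blue => payoff β x.1 x.2) (μ.prod ν) :=
  Integrable.of_bound (payoff_meas β).aestronglyMeasurable (1 + β)
    (Filter.Eventually.of_forall fun x => payoff_abs hβ x.1 x.2)

theorem expected_bound {β : ℝ} (hβ : 0 ≤ β) (μ : ProbabilityMeasure Red)
    (ν : ProbabilityMeasure Blue) : -β ≤ expected β μ ν ∧ expected β μ ν ≤ 1 := by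
  unfold expected
  have hi := integ hβ (μ : Measure Red) (ν : Measure Blue)
  constructor
  · have := integral_mono (integrable_const (-β)) hi (fun x => (payoff_bound hβ x.1 x.2).1)
    simpa using this
  · have := integral_mono hi (integrable_const (1 : ℝ)) (fun x => (payoff_bound hβ x.1 x.2).2)
    simpa using this

/-! ### BLUE can hold RED to `M` -/

theorem blue {β M : ℝ} {n : ℕ} (hβ : 0 ≤ β) (hM : 0 < M) (hn : 1 ≤ n)
    (hMn : M = ((n : ℝ) - 1 - β) / n ^ 2)
    (hmax : ∀ k : ℕ, 1 ≤ k → ((k : ℝ) - 1 - β) / k ^ 2 ≤ M) :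
    ∃ ν : ProbabilityMeasure Blue, ∀ μ : ProbabilityMeasure Red, expected β μ ν ≤ M := by
  have := U_prob
  have h1 := F_one hβ hM hn hMn hmax
  have hb : 0 < 1 + β := by linarith
  have hP : IsProbabilityMeasure (U.map (qB β M h1)) :=
    Measure.isProbabilityMeasure_map (qB_meas β M h1).aemeasurable
  refine ⟨⟨U.map (qB β M h1), hP⟩, fun μ => ?_⟩
  unfold expected
  show ∫ x : Red × Blue, payoff β x.1 x.2 ∂((μ : Measure Red).prod (U.map (qB β M h1))) ≤ M
  rw [integral_prod _ (integ hβ _ _)]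
  have hin : ∀ r : Red, ∫ p : Blue, payoff β r p ∂(U.map (qB β M h1)) ≤ M := by
    intro r
    obtain ⟨⟨a, A⟩, ha, hA, haA⟩ := r
    simp only at ha hA haA
    have hm : MeasurableSet {p : Blue | (p : ℝ) ∈ Icc a (a + A)} :=
      measurable_subtype_coe measurableSet_Icc
    have e : (fun p : Blue => payoff β (a, A) p) =
        fun p => A - indicator {p : Blue | (p : ℝ) ∈ Icc a (a + A)} (fun _ => (1 + β) * A) p := by
      funext p
      unfold payoff
      by_cases hp : (p : ℝ) ∈ Icc a (a + A)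
      · rw [if_pos hp, indicator_of_mem (by exact hp)]; ring
      · rw [if_neg hp, indicator_of_notMem (by exact hp)]; ring
    rw [e, integral_sub (integrable_const _) ((integrable_const _).indicator hm),
      integral_indicator_const _ hm]
    simp only [integral_const, probReal_univ, smul_eq_mul, one_mul]
    rcases hA.eq_or_lt with h0 | h0
    · rw [← h0]; simp; exact hM.le
    · have := interval_mass hβ hM h1 ha h0 haA
      rw [div_le_iff₀ hb] at this
      have h2 := mul_le_mul_of_nonneg_right this h0.le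
      have h3 : (1 - M / A) * A = A - M := by field_simp
      rw [h3] at h2
      nlinarith
  have := integral_mono (μ := (μ : Measure Red)) (integ hβ _ _).integral_prod_left
    (integrable_const M) hin
  simpa using this

/-! ### RED can secure almost `M` -/

theorem red {β M : ℝ} {n : ℕ} (hβ : 0 ≤ β) (hM : 0 < M) (hn : 1 ≤ n)
    (hMn : M = ((n : ℝ) - 1 - β) / n ^ 2) {ε : ℝ} (hε : 0 < ε) :
    ∃ μ : ProbabilityMeasure Red, ∀ ν : ProbabilityMeasure Blue, M - ε ≤ expected β μ ν := by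
  have hn0 : (0 : ℝ) < n := by exact_mod_cast hn
  have hnb : 0 < (n : ℝ) - 1 - β := by
    by_contra h
    push Not at h
    have : ((n : ℝ) - 1 - β) / n ^ 2 ≤ 0 := div_nonpos_of_nonpos_of_nonneg h (by positivity)
    linarith
  obtain ⟨δ, hδ, hδ1, hδ2⟩ : ∃ δ : ℝ, 0 < δ ∧ δ ≤ 1 ∧ M * δ ≤ ε := by
    refine ⟨min 1 (ε / M), lt_min one_pos (by positivity), min_le_left _ _, ?_⟩
    calc M * min 1 (ε / M) ≤ M * (ε / M) := by gcongr; exact min_le_right _ _
      _ = ε := by field_simp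
  set ℓ : ℝ := (1 - δ) / n with hℓ
  have hℓ0 : 0 ≤ ℓ := div_nonneg (by linarith) hn0.le
  have hℓ1 : ℓ < 1 / n := by rw [hℓ]; gcongr; linarith
  have hmem : ∀ i : Fin n, ((((i : ℕ) : ℝ) / n, ℓ) : ℝ × ℝ) ∈ Red := by
    intro i
    refine ⟨by positivity, hℓ0, ?_⟩
    have hi : ((i : ℕ) : ℝ) + 1 ≤ n := by exact_mod_cast i.2
    have : ((i : ℕ) : ℝ) / n + 1 / n ≤ 1 := by rw [← add_div, div_le_one hn0]; exact hi
    simp only; linarith
  set g : Fin n → Red := fun i => ⟨_, hmem i⟩ with hg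
  have : Nonempty (Fin n) := ⟨⟨0, hn⟩⟩
  set P : Measure (Fin n) := (PMF.uniformOfFintype (Fin n)).toMeasure with hP
  have hgm : Measurable g := measurable_of_finite g
  have hPg : IsProbabilityMeasure (P.map g) :=
    Measure.isProbabilityMeasure_map hgm.aemeasurable
  refine ⟨⟨P.map g, hPg⟩, fun ν => ?_⟩
  unfold expected
  show M - ε ≤ ∫ x : Red × Blue, payoff β x.1 x.2 ∂((P.map g).prod (ν : Measure Blue))
  rw [integral_prod_symm _ (integ hβ _ _)]
  have hin : ∀ p : Blue, M - ε ≤ ∫ r : Red, payoff β r p ∂(P.map g) := by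
    intro p
    have hmp : Measurable (fun r : Red => payoff β r p) :=
      (payoff_meas β).comp (by fun_prop : Measurable (fun r : Red => (r, p)))
    rw [integral_map hgm.aemeasurable hmp.aestronglyMeasurable, hP, PMF.integral_eq_sum]
    simp only [PMF.uniformOfFintype_apply, Fintype.card_fin, ENNReal.toReal_inv,
      ENNReal.toReal_natCast, smul_eq_mul]
    rw [← Finset.mul_sum]
    have hsum : ((n : ℝ) - 1 - β) * ℓ ≤ ∑ i : Fin n, payoff β (g i) p := by
      by_cases hex : ∃ j : Fin n, (p : ℝ) ∈ Icc (((j : ℕ) : ℝ) / n) (((j : ℕ) : ℝ) / n + ℓ)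
      · obtain ⟨j, hj⟩ := hex
        have h2 : ∀ i : Fin n, i ≠ j → payoff β (g i) p = ℓ := by
          intro i hij
          unfold payoff
          rw [if_neg]
          intro hi
          simp only [hg] at hi
          apply hij
          apply Fin.ext
          have a1 := hi.1; have a2 := hi.2; have b1 := hj.1; have b2 := hj.2
          have c1 : ((i : ℕ) : ℝ) / n < ((j : ℕ) : ℝ) / n + 1 / n := by linarith
          have c2 : ((j : ℕ) : ℝ) / n < ((i : ℕ) : ℝ) / n + 1 / n := by linarith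
          rw [← add_div, div_lt_div_iff_of_pos_right hn0] at c1 c2
          have d1 : (i : ℕ) < (j : ℕ) + 1 := by exact_mod_cast c1
          have d2 : (j : ℕ) < (i : ℕ) + 1 := by exact_mod_cast c2
          omega
        have h3 : payoff β (g j) p = -β * ℓ := by
          unfold payoff
          rw [if_pos]
          simpa [hg] using hj
        rw [← Finset.add_sum_erase _ _ (Finset.mem_univ j), h3,
          Finset.sum_congr rfl (fun i hi => h2 i (Finset.ne_of_mem_erase hi)), Finset.sum_const,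
          Finset.card_erase_of_mem (Finset.mem_univ j), Finset.card_univ, Fintype.card_fin,
          nsmul_eq_mul, Nat.cast_sub hn]
        push_cast
        nlinarith
      · push Not at hex
        have h2 : ∀ i : Fin n, payoff β (g i) p = ℓ := by
          intro i
          unfold payoff
          rw [if_neg]
          intro hi
          exact hex i (by simpa [hg] using hi)
        simp only [h2, Finset.sum_const, Finset.card_univ, Fintype.card_fin, nsmul_eq_mul]
        nlinarith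
    have h5 : (n : ℝ)⁻¹ * (((n : ℝ) - 1 - β) * ℓ) = M * (1 - δ) := by
      rw [hMn, hℓ]; field_simp
    have h6 := mul_le_mul_of_nonneg_left hsum (inv_nonneg.2 hn0.le)
    rw [h5] at h6
    linarith
  have := integral_mono (μ := (ν : Measure Blue)) (integrable_const (M - ε))
    (integ hβ _ _).integral_prod_right hin
  simpa using this

/-- **The value of the point-versus-interval game.** For every `β ≥ 0`, the maximum
`M = max_{n ≥ 1} (n - 1 - β) / n ^ 2` exists, and both the lower value `sup_μ inf_ν` and the upper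
value `inf_ν sup_μ` of the game are equal to `M`. -/
theorem result (β : ℝ) (hβ : 0 ≤ β) : ∃ M : ℝ,
    IsGreatest {v : ℝ | ∃ n : ℕ, 1 ≤ n ∧ v = ((n : ℝ) - 1 - β) / n ^ 2} M ∧
    (⨆ μ : ProbabilityMeasure Red, ⨅ ν : ProbabilityMeasure Blue, expected β μ ν) = M ∧
    (⨅ ν : ProbabilityMeasure Blue, ⨆ μ : ProbabilityMeasure Red, expected β μ ν) = M := by
  obtain ⟨n, hn, hpos, hmax⟩ := exists_max hβ
  obtain ⟨M, hMn⟩ : ∃ M, M = ((n : ℝ) - 1 - β) / n ^ 2 := ⟨_, rfl⟩
  rw [← hMn] at hpos hmax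
  obtain ⟨ν₀, hν₀⟩ := blue hβ hpos hn hMn hmax
  obtain ⟨μ₀, -⟩ := red hβ hpos hn hMn one_pos
  have : Nonempty (ProbabilityMeasure Blue) := ⟨ν₀⟩
  have : Nonempty (ProbabilityMeasure Red) := ⟨μ₀⟩
  have bb : ∀ μ, BddBelow (range fun ν => expected β μ ν) := fun μ =>
    ⟨-β, by rintro _ ⟨ν, rfl⟩; exact (expected_bound hβ μ ν).1⟩
  have ba : ∀ ν, BddAbove (range fun μ => expected β μ ν) := fun ν =>
    ⟨1, by rintro _ ⟨μ, rfl⟩; exact (expected_bound hβ μ ν).2⟩
  have bb2 : BddAbove (range fun μ => ⨅ ν, expected β μ ν) :=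
    ⟨1, by rintro _ ⟨μ, rfl⟩; exact (ciInf_le (bb μ) ν₀).trans (expected_bound hβ μ ν₀).2⟩
  have ba2 : BddBelow (range fun ν => ⨆ μ, expected β μ ν) :=
    ⟨-β, by rintro _ ⟨ν, rfl⟩; exact (expected_bound hβ μ₀ ν).1.trans (le_ciSup (ba ν) μ₀)⟩
  refine ⟨M, ⟨⟨n, hn, hMn⟩, ?_⟩, ?_, ?_⟩
  · rintro _ ⟨k, hk, rfl⟩
    exact hmax k hk
  · apply le_antisymm
    · exact ciSup_le fun μ => (ciInf_le (bb μ) ν₀).trans (hν₀ μ)
    · refine le_of_forall_sub_le fun ε hε => ?_
      obtain ⟨μ, hμ⟩ := red hβ hpos hn hMn hε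
      exact (le_ciInf hμ).trans (le_ciSup bb2 μ)
  · apply le_antisymm
    · exact (ciInf_le ba2 ν₀).trans (ciSup_le hν₀)
    · refine le_of_forall_sub_le fun ε hε => ?_
      obtain ⟨μ, hμ⟩ := red hβ hpos hn hMn hε
      exact le_ciInf fun ν => (hμ ν).trans (le_ciSup (ba ν) μ)

end Pool.Agent.Results.MP_d7d923_pr.ValueFormula
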